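import Pool.Agent.W539.Cone.Chambers

/-!
# Nef and movable cones of quotient pairs

`X` is a ℚ-factorial terminal variety with `K_X ≡ 0`, `V = N^1(X)`, `L` the lattice of divisor
classes, `E = Mov^e(X)`, `Γ` the image of `PsAut(X)`, `𝒞` the set of the cones `Nef^e(X')`, `X'` a small
ℚ-factorial modification of `X`. `G` is the image of a finite group of pseudo-automorphisms of `X`.
The chambers induced on the fixed space of `G` with nonempty interior are the cones `Nef^e(Y')` of
the ℚ-factorial quotients `(Y', Δ') = X'' / G`, `X''` a small `G`-equivariant modification of `X` and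
`Δ'` the branch divisor; these are klt Calabi-Yau pairs, and the group of `Q` is the image of
`PsAut(Y')` (or of `PsAut(Y', Δ')`).
-/

namespace Pool.Agent.Results.MP_ad47bb_ag.QuotientPairs

open Pool.Agent.W539.Cone

theorem result {V : Type} [NormedAddCommGroup V] [NormedSpace ℝ V] [FiniteDimensional ℝ V]
    (R : ConeRep V) (hR : R.Good) (𝒞 : Set (Set V)) (h𝒞 : IsFan R 𝒞)
    (G : Subgroup (V ≃ₗ[ℝ] V)) (Q : ConeRep (fixed G)) (hQ : IsQuot R G Q)
    (hpres : Permutes Q.Γ (induced 𝒞 (fixed G))) :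
    Q.Good ∧ FinOrbits Q.Γ (induced 𝒞 (fixed G)) ∧ ∀ D ∈ induced 𝒞 (fixed G), Q.GoodOn D :=
  chambers_quot R hR 𝒞 h𝒞 G Q hQ hpres

end Pool.Agent.Results.MP_ad47bb_ag.QuotientPairs
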